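import Pool.Agent.R792.Circ.Graph

namespace Pool.Agent.Results.MP_cd685f_co.CirculantDoublySaturated

open Pool.Agent.R792.Circ

/-- For every odd `t ≥ 17` the circulant graph `G_t = C_{5t-10}(D_t)` is doubly saturated
`R(3,t)`-good. -/
theorem result (t : ℕ) (ht : 17 ≤ t) (hodd : Odd t) :
    DoublySaturated 3 t (circ (5*t-10) (Dset t)) :=
  main t ht hodd

end Pool.Agent.Results.MP_cd685f_co.CirculantDoublySaturated
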